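import Mathlib
import Pool.Agent.H19.Sup.V2

set_option autoImplicit false

/-!
# KD1: the Kusmin-Landau inequality for monotone differences

If `d n = φ (n + 1) - φ n` is monotone on `[a, b]` with values in `[ν + δ, ν + 1 - δ]` (`ν` an
integer), then `|∑_{a ≤ n ≤ b} e(φ n)| ≤ 1 / δ`.
-/

namespace Pool.Agent.H60.KD

open Pool.Agent.H19.Sup

/-- `ee` has period one -/
theorem ee_int (x : ℝ) (ν : ℤ) : ee (x + ν) = ee x := by
  unfold ee
  rw [show (((2 * Real.pi * (x + ν) : ℝ) : ℂ) * Complex.I) =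
    (((2 * Real.pi * x : ℝ) : ℂ) * Complex.I) + (ν : ℂ) * (2 * (Real.pi : ℂ) * Complex.I) by
      push_cast; ring]
  rw [Complex.exp_add, Complex.exp_int_mul_two_pi_mul_I, mul_one]

theorem le_ee_sub_one {x δ : ℝ} (h1 : δ ≤ x) (h2 : x ≤ 1 - δ) :
    4 * δ ≤ ‖ee x - 1‖ := by
  rcases le_or_gt x (1 / 2) with h | h
  · rcases le_or_gt 0 x with hx | hx
    · have := V2_le_ee_sub_one (x := x) (by rw [abs_of_nonneg hx]; exact h)
      rw [abs_of_nonneg hx] at this
      linarith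
    · have := norm_nonneg (ee x - 1)
      linarith
  · rcases le_or_gt x 1 with hx | hx
    · have e : ee x = ee (x - 1) := by
        have := ee_int (x - 1) 1
        rw [← this]
        push_cast
        congr 1
        ring
      rw [e]
      have := V2_le_ee_sub_one (x := x - 1) (by rw [abs_of_nonpos (by linarith)]; linarith)
      rw [abs_of_nonpos (by linarith)] at this
      linarith
    · have := norm_nonneg (ee x - 1)
      linarith

/-- the cotangent -/
noncomputable def ct (x : ℝ) : ℝ := Real.cos (Real.pi * x) / Real.sin (Real.pi * x)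

theorem sin_pos' {x : ℝ} (h1 : 0 < x) (h2 : x < 1) : 0 < Real.sin (Real.pi * x) := by
  apply Real.sin_pos_of_pos_of_lt_pi
  · positivity
  · nlinarith [Real.pi_pos]

theorem ct_anti {x y : ℝ} (h1 : 0 < x) (hxy : x ≤ y) (h2 : y < 1) : ct y ≤ ct x := by
  have hx := sin_pos' h1 (by linarith)
  have hy := sin_pos' (by linarith) h2
  unfold ct
  rw [div_le_div_iff₀ hy hx]
  have h : 0 ≤ Real.sin (Real.pi * y - Real.pi * x) := by
    apply Real.sin_nonneg_of_nonneg_of_le_pi
    · nlinarith [Real.pi_pos]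
    · nlinarith [Real.pi_pos]
  rw [Real.sin_sub] at h
  linarith

theorem inv_eq {x : ℝ} (h1 : 0 < x) (h2 : x < 1) :
    (ee x - 1)⁻¹ = -(1 / 2) - ((ct x / 2 : ℝ) : ℂ) * Complex.I := by
  have hx := sin_pos' h1 h2
  have hne : ee x - 1 ≠ 0 := by
    intro h0
    have := le_ee_sub_one (x := x) (δ := min x (1 - x)) (min_le_left _ _)
      (by have := min_le_right x (1 - x); linarith)
    rw [h0, norm_zero] at this
    have h3 : 0 < min x (1 - x) := lt_min h1 (by linarith)
    linarith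
  apply inv_eq_of_mul_eq_one_right
  have e1 : ee x = ((Real.cos (2 * (Real.pi * x)) : ℝ) : ℂ) +
      ((Real.sin (2 * (Real.pi * x)) : ℝ) : ℂ) * Complex.I := by
    unfold ee
    rw [Complex.exp_mul_I, show (2 * Real.pi * x : ℝ) = 2 * (Real.pi * x) by ring]
    push_cast
    ring
  rw [e1, Real.cos_two_mul, Real.sin_two_mul]
  unfold ct
  set s := Real.sin (Real.pi * x) with hs
  set c := Real.cos (Real.pi * x) with hc
  have hsc : c ^ 2 = 1 - s ^ 2 := by
    have := Real.sin_sq_add_cos_sq (Real.pi * x)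
    rw [← hs, ← hc] at this
    linarith
  have hs0 : s ≠ 0 := hx.ne'
  have e3 : 2 * c ^ 2 - 1 = 1 - 2 * (s * s) := by rw [hsc]; ring
  rw [e3]
  have h4 : (((1 - 2 * (s * s) : ℝ) : ℂ) + ((2 * s * c : ℝ) : ℂ) * Complex.I - 1) *
      (-(1 / 2) - ((c / s / 2 : ℝ) : ℂ) * Complex.I) =
      ((s * s - 2 * s * c * (c / s / 2) * (-1) : ℝ) : ℂ) +
        ((2 * (s * s) * (c / s / 2) - s * c : ℝ) : ℂ) * Complex.I := by
    push_cast
    ring_nf
    rw [Complex.I_sq]
    ring
  rw [h4]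
  have e5 : 2 * (s * s) * (c / s / 2) - s * c = 0 := by
    field_simp
    ring
  have e6 : s * s - 2 * s * c * (c / s / 2) * (-1) = 1 := by
    have : 2 * s * c * (c / s / 2) = c ^ 2 := by
      field_simp
    rw [this, hsc]
    ring
  rw [e5, e6]
  simp

/-- summation by parts with an antitone sequence -/
theorem parts (u G : ℕ → ℂ) (c : ℕ → ℝ) (g : ℝ) (hu : ∀ k, ‖u k‖ = 1) (N : ℕ)
    (hG : ‖G 0‖ ≤ g) (hκ : ∀ k, k < N → ‖G (k + 1) - G k‖ ≤ (c k - c (k + 1)) / 2) :
    ‖(∑ k ∈ Finset.range (N + 1), (u (k + 1) - u k) * G k) - u (N + 1) * G N‖ ≤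
      g + (c 0 - c N) / 2 := by
  induction N with
  | zero =>
    have : (∑ k ∈ Finset.range (0 + 1), (u (k + 1) - u k) * G k) - u (0 + 1) * G 0
        = - (u 0 * G 0) := by
      simp
      ring
    rw [this, norm_neg, norm_mul, hu, one_mul]
    simpa using hG
  | succ N ih =>
    have ih' := ih (fun k hk => hκ k (by omega))
    rw [Finset.sum_range_succ]
    have h1 : (∑ k ∈ Finset.range (N + 1), (u (k + 1) - u k) * G k) +
        (u (N + 1 + 1) - u (N + 1)) * G (N + 1) - u (N + 1 + 1) * G (N + 1)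
        = ((∑ k ∈ Finset.range (N + 1), (u (k + 1) - u k) * G k) - u (N + 1) * G N)
          - u (N + 1) * (G (N + 1) - G N) := by ring
    rw [h1]
    refine (norm_sub_le _ _).trans ?_
    rw [norm_mul, hu, one_mul]
    have h2 := hκ N (by omega)
    linarith

theorem abs_ct_le {x δ : ℝ} (hδ : 0 < δ) (h1 : δ ≤ x) (h2 : x ≤ 1 - δ) :
    |ct x| / 2 ≤ 1 / (4 * δ) := by
  have hx0 : 0 < x := by linarith
  have hx1 : x < 1 := by linarith
  have e1 := inv_eq hx0 hx1
  have e2 : ct x / 2 = -((ee x - 1)⁻¹).im := by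
    rw [e1]
    simp
  have e3 : |ct x| / 2 = |ct x / 2| := by
    rw [abs_div, abs_of_pos (by norm_num : (0:ℝ) < 2)]
  rw [e3, e2, abs_neg]
  refine (Complex.abs_im_le_norm _).trans ?_
  rw [norm_inv, one_div]
  exact inv_anti₀ (by positivity) (le_ee_sub_one h1 h2)

/-- **Kusmin-Landau** on the naturals -/
theorem kl_nat (φ : ℕ → ℝ) (N : ℕ) (ν : ℤ) {δ : ℝ} (hδ : 0 < δ)
    (h1 : ∀ k, k ≤ N → (ν : ℝ) + δ ≤ φ (k + 1) - φ k ∧ φ (k + 1) - φ k ≤ ν + 1 - δ)
    (h2 : ∀ k, k < N → φ (k + 1) - φ k ≤ φ (k + 2) - φ (k + 1)) :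
    ‖∑ k ∈ Finset.range (N + 1), ee (φ k)‖ ≤ 1 / δ := by
  set x : ℕ → ℝ := fun k => φ (k + 1) - φ k - ν with hx
  set u : ℕ → ℂ := fun k => ee (φ k) with hu
  have hu1 : ∀ k, ‖u k‖ = 1 := fun k => V2_ee_norm _
  have hx1 : ∀ k, k ≤ N → δ ≤ x k ∧ x k ≤ 1 - δ := by
    intro k hk
    have := h1 k hk
    simp only [hx]
    constructor <;> linarith [this.1, this.2]
  set G : ℕ → ℂ := fun k => (ee (x k) - 1)⁻¹ with hG
  have hne : ∀ k, k ≤ N → ee (x k) - 1 ≠ 0 := by
    intro k hk h0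
    have := le_ee_sub_one (hx1 k hk).1 (hx1 k hk).2
    rw [h0, norm_zero] at this
    linarith
  have hGb : ∀ k, k ≤ N → ‖G k‖ ≤ 1 / (4 * δ) := by
    intro k hk
    simp only [hG, norm_inv]
    rw [one_div]
    exact inv_anti₀ (by positivity) (le_ee_sub_one (hx1 k hk).1 (hx1 k hk).2)
  have hκ : ∀ k, k < N → ‖G (k + 1) - G k‖ ≤ (ct (x k) - ct (x (k + 1))) / 2 := by
    intro k hk
    have a1 := hx1 k hk.le
    have a2 := hx1 (k + 1) hk
    have a3 : x k ≤ x (k + 1) := by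
      have := h2 k hk
      simp only [hx]
      linarith
    simp only [hG]
    rw [inv_eq (by linarith) (by linarith), inv_eq (by linarith) (by linarith)]
    have e : (-(1 / 2) - ((ct (x (k + 1)) / 2 : ℝ) : ℂ) * Complex.I) -
        (-(1 / 2) - ((ct (x k) / 2 : ℝ) : ℂ) * Complex.I) =
        (((ct (x k) - ct (x (k + 1))) / 2 : ℝ) : ℂ) * Complex.I := by
      push_cast
      ring
    rw [e, norm_mul, Complex.norm_I, mul_one, Complex.norm_real, Real.norm_of_nonneg]
    have := ct_anti (by linarith) a3 (by linarith)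
    linarith
  have hp := parts u G (fun k => ct (x k)) (1 / (4 * δ)) hu1 N (hGb 0 (by omega)) hκ
  have hterm : ∀ k ∈ Finset.range (N + 1), ee (φ k) = (u (k + 1) - u k) * G k := by
    intro k hk
    rw [Finset.mem_range] at hk
    have n1 := hne k (by omega)
    have e1 : u (k + 1) = u k * ee (x k) := by
      simp only [hu, hx]
      rw [← V2_ee_add]
      have := ee_int (φ k + (φ (k + 1) - φ k - ν)) ν
      rw [← this]
      congr 1
      ring
    have e2 : u (k + 1) - u k = u k * (ee (x k) - 1) := by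
      rw [e1]
      ring
    rw [e2]
    simp only [hG]
    rw [mul_assoc, mul_inv_cancel₀ n1, mul_one]
  rw [Finset.sum_congr rfl hterm]
  have hlast : ‖u (N + 1) * G N‖ ≤ 1 / (4 * δ) := by
    rw [norm_mul, hu1, one_mul]
    exact hGb N le_rfl
  have b0 := abs_ct_le hδ (hx1 0 (by omega)).1 (hx1 0 (by omega)).2
  have bN := abs_ct_le hδ (hx1 N le_rfl).1 (hx1 N le_rfl).2
  have c0 := le_abs_self (ct (x 0))
  have cN := neg_abs_le (ct (x N))
  have e1 : ∑ k ∈ Finset.range (N + 1), (u (k + 1) - u k) * G k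
        = ((∑ k ∈ Finset.range (N + 1), (u (k + 1) - u k) * G k) - u (N + 1) * G N)
          + u (N + 1) * G N := by ring
  rw [e1]
  refine (norm_add_le _ _).trans ?_
  have e2 : 1 / (4 * δ) * 4 = 1 / δ := by
    field_simp
  linarith

/-- **Kusmin-Landau** on an interval of integers -/
theorem kl (φ : ℤ → ℝ) {a b : ℤ} (hab : a ≤ b) (ν : ℤ) {δ : ℝ} (hδ : 0 < δ)
    (h1 : ∀ n, a ≤ n → n ≤ b → (ν : ℝ) + δ ≤ φ (n + 1) - φ n ∧ φ (n + 1) - φ n ≤ ν + 1 - δ)
    (h2 : ∀ n, a ≤ n → n < b → φ (n + 1) - φ n ≤ φ (n + 2) - φ (n + 1)) :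
    ‖∑ n ∈ Finset.Icc a b, ee (φ n)‖ ≤ 1 / δ := by
  obtain ⟨N, rfl⟩ : ∃ N : ℕ, b = a + N := ⟨(b - a).toNat, by omega⟩
  have hsum : ∑ n ∈ Finset.Icc a (a + N), ee (φ n)
      = ∑ k ∈ Finset.range (N + 1), ee (φ (a + k)) := by
    symm
    refine Finset.sum_bij (fun (k : ℕ) _ => a + (k : ℤ)) ?_ ?_ ?_ ?_
    · intro k hk
      rw [Finset.mem_range] at hk
      rw [Finset.mem_Icc]
      omega
    · intro k _ l _ hkl
      have : (a + (k : ℤ)) = a + (l : ℤ) := hkl
      omega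
    · intro n hn
      rw [Finset.mem_Icc] at hn
      exact ⟨(n - a).toNat, by rw [Finset.mem_range]; omega, by
        show a + ((n - a).toNat : ℤ) = n
        omega⟩
    · intro k _
      rfl
  rw [hsum]
  refine kl_nat (fun k : ℕ => φ (a + k)) N ν hδ ?_ ?_
  · intro k hk
    have := h1 (a + k) (by omega) (by omega)
    push_cast
    rw [← add_assoc]
    exact this
  · intro k hk
    have := h2 (a + k) (by omega) (by omega)
    push_cast
    rw [← add_assoc, ← add_assoc]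
    exact this

end Pool.Agent.H60.KD
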