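import Mathlib
import Pool.Agent.H60.KD.KD1

set_option autoImplicit false

/-!
# KD2: the second difference test

If the second difference of `φ` lies in `[μ, M]` on `[a, b]` (at most `N` integers), then
`|∑ e(φ n)| ≤ 12 (M N + 1) / √μ`.
-/

namespace Pool.Agent.H60.KD

open Pool.Agent.H19.Sup

/-- the trivial bound -/
theorem triv (φ : ℤ → ℝ) (a b : ℤ) {N : ℝ} (hN : 0 ≤ N) (h : ((b - a + 1 : ℤ) : ℝ) ≤ N) :
    ‖∑ n ∈ Finset.Icc a b, ee (φ n)‖ ≤ N := by
  refine (norm_sum_le _ _).trans ?_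
  simp only [V2_ee_norm, Finset.sum_const, nsmul_eq_mul, mul_one, Int.card_Icc]
  rcases le_or_gt (b + 1 - a) 0 with h1 | h1
  · rw [Int.toNat_eq_zero.mpr h1]
    simpa using hN
  · have h2 : ((b + 1 - a).toNat : ℝ) = ((b + 1 - a : ℤ) : ℝ) := by
      have : (((b + 1 - a).toNat : ℤ) : ℝ) = ((b + 1 - a : ℤ) : ℝ) := by
        rw [Int.toNat_of_nonneg h1.le]
      rw [← this]
      norm_cast
    rw [h2]
    have h3 : (b + 1 - a : ℤ) = b - a + 1 := by ring
    rw [h3]
    exact h

theorem card_sep (S : Finset ℤ) {μ η : ℝ} (hμ : 0 < μ) (hη : 0 ≤ η)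
    (h : ∀ n ∈ S, ∀ m ∈ S, n ≤ m → μ * ((m : ℝ) - n) ≤ η) : (S.card : ℝ) ≤ η / μ + 1 := by
  rcases S.eq_empty_or_nonempty with h0 | h0
  · rw [h0]
    simp
    positivity
  · have h1 := h _ (S.min'_mem h0) _ (S.max'_mem h0) (S.min'_le_max' h0)
    have h2 : S ⊆ Finset.Icc (S.min' h0) (S.max' h0) := by
      intro n hn
      rw [Finset.mem_Icc]
      exact ⟨S.min'_le n hn, S.le_max' n hn⟩
    have h3 := Finset.card_le_card h2
    rw [Int.card_Icc] at h3
    have h4 := S.min'_le_max' h0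
    have h5 : (S.card : ℤ) ≤ S.max' h0 - S.min' h0 + 1 := by omega
    have h6 : (S.card : ℝ) ≤ (S.max' h0 : ℝ) - S.min' h0 + 1 := by exact_mod_cast h5
    have h7 : (S.max' h0 : ℝ) - S.min' h0 ≤ η / μ := by
      rw [le_div_iff₀ hμ]
      linarith
    linarith

/-- growth of the first difference -/
theorem grow (d : ℤ → ℝ) {a c : ℤ} {μ M : ℝ}
    (h : ∀ n, a ≤ n → n + 1 ≤ c → μ ≤ d (n + 1) - d n ∧ d (n + 1) - d n ≤ M) :
    ∀ n m, a ≤ n → n ≤ m → m ≤ c → μ * ((m : ℝ) - n) ≤ d m - d n ∧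
      d m - d n ≤ M * ((m : ℝ) - n) := by
  have key : ∀ j : ℕ, ∀ n, a ≤ n → n + j ≤ c → μ * j ≤ d (n + j) - d n ∧
      d (n + j) - d n ≤ M * j := by
    intro j
    induction j with
    | zero =>
      intro n _ _
      simp
    | succ j ih =>
      intro n hn hj
      have e1 := ih n hn (by push_cast at hj; omega)
      have e2 := h (n + j) (by omega) (by push_cast at hj; omega)
      push_cast
      rw [← add_assoc]
      constructor <;> linarith [e1.1, e1.2, e2.1, e2.2]
  intro n m hn hnm hm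
  obtain ⟨j, rfl⟩ : ∃ j : ℕ, m = n + j := ⟨(m - n).toNat, by omega⟩
  have := key j n hn hm
  push_cast
  rw [add_sub_cancel_left]
  exact this

theorem sd (φ : ℤ → ℝ) (a b : ℤ) {N μ M : ℝ} (hN : 1 ≤ N) (hL : ((b - a + 1 : ℤ) : ℝ) ≤ N)
    (hμ : 0 < μ) (hM : μ ≤ M)
    (h : ∀ n, a ≤ n → n + 2 ≤ b → μ ≤ φ (n + 2) - φ (n + 1) - (φ (n + 1) - φ n) ∧
      φ (n + 2) - φ (n + 1) - (φ (n + 1) - φ n) ≤ M) :
    ‖∑ n ∈ Finset.Icc a b, ee (φ n)‖ ≤ 12 * ((M * N + 1) / √μ) := by
  have hs : 0 < √μ := Real.sqrt_pos.mpr hμ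
  have hss : √μ * √μ = μ := Real.mul_self_sqrt hμ.le
  rcases le_or_gt 1 μ with hμ1 | hμ1
  · refine (triv φ a b (by linarith) hL).trans ?_
    have h1 : √μ ≤ M := by
      refine le_trans ?_ hM
      rw [Real.sqrt_le_left (by linarith)]
      nlinarith
    have h2 : N ≤ (M * N + 1) / √μ := by
      rw [le_div_iff₀ hs]
      nlinarith
    have h3 : 0 ≤ (M * N + 1) / √μ := by linarith
    linarith
  have hs1 : √μ ≤ 1 := by
    rw [Real.sqrt_le_left (by norm_num)]
    linarith
  have hM0 : 0 < M := by linarith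
  rcases le_or_gt b a with hba | hab
  · -- at most one term
    have h1 : ((b - a + 1 : ℤ) : ℝ) ≤ 1 := by
      have : b - a + 1 ≤ 1 := by omega
      exact_mod_cast this
    refine (triv φ a b (by norm_num) h1).trans ?_
    have h2 : 1 ≤ (M * N + 1) / √μ := by
      rw [le_div_iff₀ hs]
      nlinarith
    linarith
  set d : ℤ → ℝ := fun n => φ (n + 1) - φ n with hd
  set J : Finset ℤ := Finset.Icc a (b - 1) with hJ
  have hgrow := grow d (a := a) (c := b - 1) (μ := μ) (M := M) (by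
    intro n hn hn2
    have := h n hn (by omega)
    simp only [hd]
    rw [show n + 1 + 1 = n + 2 by ring]
    exact this)
  set δ : ℝ := √μ / 2 with hδ
  have hδ0 : 0 < δ := by positivity
  -- splitting off the last term
  have hsplit : ∑ n ∈ Finset.Icc a b, ee (φ n) = ∑ n ∈ J, ee (φ n) + ee (φ b) := by
    rw [hJ]
    have : Finset.Icc a b = insert b (Finset.Icc a (b - 1)) := by
      ext x
      rw [Finset.mem_insert, Finset.mem_Icc, Finset.mem_Icc]
      omega
    rw [this, Finset.sum_insert, add_comm]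
    rw [Finset.mem_Icc]
    omega
  have hmono : ∀ n m, n ∈ J → m ∈ J → n ≤ m → d n ≤ d m := by
    intro n m hn hm hnm
    rw [hJ, Finset.mem_Icc] at hn hm
    have := (hgrow n m hn.1 hnm hm.2).1
    have h0 : 0 ≤ (m : ℝ) - n := by
      have : (n : ℝ) ≤ m := by exact_mod_cast hnm
      linarith
    nlinarith
  have haJ : a ∈ J := by rw [hJ, Finset.mem_Icc]; omega
  have hbJ : b - 1 ∈ J := by rw [hJ, Finset.mem_Icc]; omega
  -- the classes
  have hmaps : ∀ n ∈ J, ⌊d n⌋ ∈ Finset.Icc ⌊d a⌋ ⌊d (b - 1)⌋ := by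
    intro n hn
    rw [Finset.mem_Icc]
    have hn' := hn
    rw [hJ, Finset.mem_Icc] at hn'
    exact ⟨Int.floor_le_floor (hmono a n haJ hn hn'.1),
      Int.floor_le_floor (hmono n (b - 1) hn hbJ hn'.2)⟩
  have hfib := Finset.sum_fiberwise_of_maps_to (s := J) (t := Finset.Icc ⌊d a⌋ ⌊d (b - 1)⌋)
    (g := fun n => ⌊d n⌋) hmaps (fun n => ee (φ n))
  -- one class
  have hclass : ∀ ν : ℤ, ‖∑ n ∈ J.filter (fun n => ⌊d n⌋ = ν), ee (φ n)‖ ≤
      1 / δ + 2 * (δ / μ + 1) := by
    intro ν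
    set Cν := J.filter (fun n => ⌊d n⌋ = ν) with hC
    set mid := Cν.filter (fun n => (ν : ℝ) + δ ≤ d n ∧ d n ≤ ν + 1 - δ) with hmid
    have e1 := Finset.sum_filter_add_sum_filter_not Cν
      (fun n => (ν : ℝ) + δ ≤ d n ∧ d n ≤ ν + 1 - δ) (fun n => ee (φ n))
    rw [← e1]
    refine (norm_add_le _ _).trans ?_
    apply add_le_add
    · -- the middle part
      rw [← hmid]
      rcases mid.eq_empty_or_nonempty with h0 | h0
      · rw [h0]
        simp
        positivity
      · have hmem : ∀ n, n ∈ mid ↔ n ∈ J ∧ ((ν : ℝ) + δ ≤ d n ∧ d n ≤ ν + 1 - δ) := by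
          intro n
          rw [hmid, Finset.mem_filter, hC, Finset.mem_filter]
          constructor
          · rintro ⟨⟨p, _⟩, q⟩
            exact ⟨p, q⟩
          · rintro ⟨p, q⟩
            refine ⟨⟨p, ?_⟩, q⟩
            rw [Int.floor_eq_iff]
            constructor <;> linarith [q.1, q.2]
        have hI : mid = Finset.Icc (mid.min' h0) (mid.max' h0) := by
          ext n
          rw [Finset.mem_Icc]
          constructor
          · intro hn
            exact ⟨mid.min'_le n hn, mid.le_max' n hn⟩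
          · rintro ⟨p, q⟩
            have m1 := (hmem _).1 (mid.min'_mem h0)
            have m2 := (hmem _).1 (mid.max'_mem h0)
            have hnJ : n ∈ J := by
              have j1 := m1.1
              have j2 := m2.1
              rw [hJ, Finset.mem_Icc] at j1 j2 ⊢
              omega
            rw [hmem]
            have k1 := hmono _ _ m1.1 hnJ p
            have k2 := hmono _ _ hnJ m2.1 q
            exact ⟨hnJ, by linarith [m1.2.1], by linarith [m2.2.2]⟩
        rw [hI]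
        refine kl φ (mid.min'_le_max' h0) ν hδ0 ?_ ?_
        · intro n hn1 hn2
          have : n ∈ mid := by
            rw [hI, Finset.mem_Icc]
            exact ⟨hn1, hn2⟩
          exact ((hmem n).1 this).2
        · intro n hn1 hn2
          have i1 : n ∈ mid := by
            rw [hI, Finset.mem_Icc]
            exact ⟨hn1, hn2.le⟩
          have i2 : n + 1 ∈ mid := by
            rw [hI, Finset.mem_Icc]
            exact ⟨by omega, by omega⟩
          have := hmono n (n + 1) ((hmem n).1 i1).1 ((hmem _).1 i2).1 (by omega)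
          simp only [hd] at this
          rw [show n + 1 + 1 = n + 2 by ring] at this
          exact this
    · -- the two ends
      refine (norm_sum_le _ _).trans ?_
      simp only [V2_ee_norm, Finset.sum_const, nsmul_eq_mul, mul_one]
      set lo := J.filter (fun n => (ν : ℝ) ≤ d n ∧ d n ≤ ν + δ) with hlo
      set hi := J.filter (fun n => (ν : ℝ) + 1 - δ ≤ d n ∧ d n ≤ ν + 1) with hhi
      have hsub : Cν.filter (fun n => ¬ ((ν : ℝ) + δ ≤ d n ∧ d n ≤ ν + 1 - δ)) ⊆ lo ∪ hi := by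
        intro n hn
        rw [Finset.mem_filter, hC, Finset.mem_filter] at hn
        obtain ⟨⟨p, q⟩, r⟩ := hn
        rw [Int.floor_eq_iff] at q
        rw [Finset.mem_union, hlo, hhi, Finset.mem_filter, Finset.mem_filter]
        rw [not_and_or, not_le, not_le] at r
        rcases r with r | r
        · left
          exact ⟨p, q.1, r.le⟩
        · right
          exact ⟨p, r.le, q.2.le⟩
      have c1 : (lo.card : ℝ) ≤ δ / μ + 1 := by
        apply card_sep lo hμ hδ0.le
        intro n hn m hm hnm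
        rw [hlo, Finset.mem_filter, hJ, Finset.mem_Icc] at hn hm
        have := (hgrow n m hn.1.1 hnm hm.1.2).1
        linarith [hn.2.1, hm.2.2]
      have c2 : (hi.card : ℝ) ≤ δ / μ + 1 := by
        apply card_sep hi hμ hδ0.le
        intro n hn m hm hnm
        rw [hhi, Finset.mem_filter, hJ, Finset.mem_Icc] at hn hm
        have := (hgrow n m hn.1.1 hnm hm.1.2).1
        linarith [hn.2.1, hm.2.2]
      have c3 := (Finset.card_le_card hsub).trans (Finset.card_union_le _ _)
      have c4 : ((Cν.filter (fun n => ¬ ((ν : ℝ) + δ ≤ d n ∧ d n ≤ ν + 1 - δ))).card : ℝ) ≤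
          lo.card + hi.card := by exact_mod_cast c3
      linarith
  -- the number of classes
  have hnum : ((Finset.Icc ⌊d a⌋ ⌊d (b - 1)⌋).card : ℝ) ≤ M * N + 2 := by
    rw [Int.card_Icc]
    have g1 := (hgrow a (b - 1) le_rfl (by omega) le_rfl).2
    have g2 := Int.floor_le (d (b - 1))
    have g3 := Int.lt_floor_add_one (d a)
    have g4 : ⌊d a⌋ ≤ ⌊d (b - 1)⌋ := Int.floor_le_floor (hmono a (b - 1) haJ hbJ (by omega))
    have g5 : ((⌊d (b - 1)⌋ + 1 - ⌊d a⌋).toNat : ℝ) = (⌊d (b - 1)⌋ : ℝ) + 1 - ⌊d a⌋ := by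
      have : (((⌊d (b - 1)⌋ + 1 - ⌊d a⌋).toNat : ℤ) : ℝ) =
          ((⌊d (b - 1)⌋ + 1 - ⌊d a⌋ : ℤ) : ℝ) := by
        rw [Int.toNat_of_nonneg (by omega)]
      push_cast at this
      exact_mod_cast this
    rw [g5]
    push_cast at g1 hL
    have g6 : M * ((b : ℝ) - 1 - a) ≤ M * N := by
      apply mul_le_mul_of_nonneg_left _ hM0.le
      linarith
    linarith
  have hK : 1 / δ + 2 * (δ / μ + 1) ≤ 5 / √μ := by
    have e1 : 1 / δ = 2 / √μ := by
      rw [hδ]
      field_simp
    have e2 : δ / μ = 1 / (2 * √μ) := by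
      rw [hδ]
      nth_rewrite 2 [← hss]
      field_simp
    have e3 : 1 ≤ 1 / √μ := by
      rw [le_div_iff₀ hs]
      linarith
    have e4 : 2 * (1 / (2 * √μ)) = 1 / √μ := by
      field_simp
    have e5 : 2 / √μ = 2 * (1 / √μ) := by ring
    have e6 : 5 / √μ = 5 * (1 / √μ) := by ring
    rw [e1, e2, e5, e6]
    linarith
  rw [hsplit, ← hfib]
  refine (norm_add_le _ _).trans ?_
  rw [V2_ee_norm]
  have t1 : ‖∑ ν ∈ Finset.Icc ⌊d a⌋ ⌊d (b - 1)⌋, ∑ n ∈ J.filter (fun n => ⌊d n⌋ = ν),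
      ee (φ n)‖ ≤ (M * N + 2) * (5 / √μ) := by
    refine (norm_sum_le _ _).trans ?_
    refine (Finset.sum_le_sum (fun ν _ => (hclass ν).trans hK)).trans ?_
    rw [Finset.sum_const, nsmul_eq_mul]
    exact mul_le_mul_of_nonneg_right hnum (by positivity)
  have t2 : 1 ≤ 1 / √μ := by
    rw [le_div_iff₀ hs]
    linarith
  have t3 : (M * N + 2) * (5 / √μ) + 1 ≤ 12 * ((M * N + 1) / √μ) := by
    have e1 : (M * N + 2) * (5 / √μ) = (5 * (M * N) + 10) * (1 / √μ) := by ring
    have e2 : 12 * ((M * N + 1) / √μ) = (12 * (M * N) + 12) * (1 / √μ) := by ring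
    rw [e1, e2]
    have e3 : 0 ≤ M * N := by positivity
    nlinarith
  linarith

end Pool.Agent.H60.KD
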