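import Mathlib
import Pool.Agent.H60.KD.KD2
import Pool.Agent.H19.Sup.V3

set_option autoImplicit false

/-!
# KD3: van der Corput's `k`-th difference test

If the `k`-th difference of `φ` lies in `[μ, M]` on `[a, b]` (at most `N` integers), `Λ = M² / μ`,
`x = 1 / (2^k - 2)`, `w = 4 / 2^k`, then
`|∑ e(φ n)| ≤ C N (Λ ^ x + (M / (μ N)) ^ w Λ ^ (-x))`.
-/

namespace Pool.Agent.H60.KD

open Pool.Agent.H19.Sup
open scoped ComplexConjugate

/-- iterated forward differences -/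
noncomputable def D : ℕ → (ℤ → ℝ) → ℤ → ℝ
  | 0, φ, n => φ n
  | k + 1, φ, n => D k (fun m => φ (m + 1) - φ m) n

theorem D_sub (k : ℕ) : ∀ (φ ψ : ℤ → ℝ) (n : ℤ), D k (fun m => φ m - ψ m) n = D k φ n - D k ψ n := by
  induction k with
  | zero => intro φ ψ n; rfl
  | succ k ih =>
    intro φ ψ n
    simp only [D]
    rw [← ih]
    congr 1
    funext m
    ring

theorem D_shift (k : ℕ) : ∀ (φ : ℤ → ℝ) (h n : ℤ), D k (fun m => φ (m + h)) n = D k φ (n + h) := by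
  induction k with
  | zero => intro φ h n; rfl
  | succ k ih =>
    intro φ h n
    simp only [D]
    rw [← ih]
    congr 1
    funext m
    rw [show m + 1 + h = m + h + 1 by ring]

theorem D_neg (k : ℕ) : ∀ (φ : ℤ → ℝ) (n : ℤ), D k (fun m => - φ m) n = - D k φ n := by
  induction k with
  | zero => intro φ n; rfl
  | succ k ih =>
    intro φ n
    simp only [D]
    rw [← ih]
    congr 1
    funext m
    ring

/-- one more difference -/
theorem D_succ (k : ℕ) (φ : ℤ → ℝ) (n : ℤ) : D (k + 1) φ n = D k φ (n + 1) - D k φ n := by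
  simp only [D]
  rw [D_sub, D_shift]

/-- the difference with step `h` -/
theorem D_step (k : ℕ) (φ : ℤ → ℝ) {a b : ℤ} {μ M : ℝ}
    (H : ∀ n, a ≤ n → n + (k + 1 : ℕ) ≤ b → μ ≤ D (k + 1) φ n ∧ D (k + 1) φ n ≤ M) :
    ∀ (h : ℕ) (n : ℤ), a ≤ n → n + k + h ≤ b →
      h * μ ≤ D k (fun m => φ (m + h) - φ m) n ∧ D k (fun m => φ (m + h) - φ m) n ≤ h * M := by
  intro h
  induction h with
  | zero =>
    intro n _ _
    rw [D_sub, D_shift]
    simp
  | succ h ih =>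
    intro n h1 h2
    have e := ih n h1 (by push_cast at h2; omega)
    have e2 := H (n + h) (by omega) (by push_cast at h2 ⊢; omega)
    rw [D_sub, D_shift] at e ⊢
    rw [D_succ] at e2
    push_cast
    rw [show n + ((h : ℤ) + 1) = n + h + 1 by ring]
    constructor <;> linarith [e.1, e.2, e2.1, e2.2]

/-- the differencing step -/
theorem weyl (φ : ℤ → ℝ) (a b : ℤ) {N : ℝ} (hN : 0 < N) (hL : ((b - a + 1 : ℤ) : ℝ) ≤ N) {H : ℕ}
    (hH : 1 ≤ H) (hHN : (H : ℝ) ≤ N) (E : ℕ → ℝ)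
    (hE : ∀ h ∈ Finset.Icc 1 (H - 1),
      ‖∑ n ∈ Finset.Icc a (b - (h : ℤ)), ee (φ (n + h) - φ n)‖ ≤ E h) :
    ‖∑ n ∈ Finset.Icc a b, ee (φ n)‖ ^ 2 ≤
      2 * N / H * (N + 2 * ∑ h ∈ Finset.Icc 1 (H - 1), E h) := by
  have hH0 : (0 : ℝ) < H := by exact_mod_cast hH
  have hE0 : ∀ h ∈ Finset.Icc 1 (H - 1), 0 ≤ E h := fun h hh => (norm_nonneg _).trans (hE h hh)
  have hS0 : 0 ≤ ∑ h ∈ Finset.Icc 1 (H - 1), E h := Finset.sum_nonneg hE0
  rcases lt_or_ge b a with hlt | hle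
  · rw [Finset.Icc_eq_empty (by simpa using hlt), Finset.sum_empty, norm_zero,
      zero_pow two_ne_zero]
    positivity
  · have key := vdc_ineq (fun n : ℤ => ee (φ n)) (fun n => (V3_norm_ee _).le) hle hH
    refine key.trans ?_
    have hlen0 : (0 : ℝ) ≤ (((b - a + 1 : ℤ) : ℝ)) := by
      exact_mod_cast (by omega : (0 : ℤ) ≤ b - a + 1)
    have hinner : ∀ h ∈ Finset.Icc 1 (H - 1), ‖∑ n ∈ Finset.Icc a (b - (h : ℤ)),
          ee (φ (n + (h : ℤ))) * conj (ee (φ n))‖ ≤ E h := by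
      intro h hh
      have h3 : ∀ n ∈ Finset.Icc a (b - (h : ℤ)),
            ee (φ (n + (h : ℤ))) * conj (ee (φ n)) = ee (φ (n + h) - φ n) := by
        intro n _
        rw [V3_ee_mul_conj]
      rw [Finset.sum_congr rfl h3]
      exact hE h hh
    have hsum := Finset.sum_le_sum hinner
    have hA1 : ((((b - a + 1 : ℤ) : ℝ)) + H) / H ≤ 2 * N / H := by
      apply div_le_div_of_nonneg_right _ hH0.le
      linarith
    apply mul_le_mul hA1 (by linarith)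
    · have : 0 ≤ ∑ h ∈ Finset.Icc 1 (H - 1), ‖∑ n ∈ Finset.Icc a (b - (h : ℤ)),
          ee (φ (n + (h : ℤ))) * conj (ee (φ n))‖ :=
        Finset.sum_nonneg (fun _ _ => norm_nonneg _)
      linarith
    · positivity

/-- `∑_{h < H} (h / H) ^ (-x) ≤ 2 H` for `x ≤ 1 / 2` -/
theorem sum_sqrt (n : ℕ) : ∑ h ∈ Finset.Icc 1 n, 1 / √(h : ℝ) ≤ 2 * √(n : ℝ) := by
  induction n with
  | zero => simp
  | succ n ih =>
    rw [Finset.sum_Icc_succ_top (by omega)]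
    have h0 : 0 < √((n + 1 : ℕ) : ℝ) := Real.sqrt_pos.mpr (by positivity)
    have h1 : 0 ≤ √(n : ℝ) := Real.sqrt_nonneg _
    have h2 : √((n + 1 : ℕ) : ℝ) * √((n + 1 : ℕ) : ℝ) = n + 1 := by
      rw [Real.mul_self_sqrt (by positivity)]
      push_cast
      ring
    have h3 : √(n : ℝ) * √(n : ℝ) = n := Real.mul_self_sqrt (by positivity)
    have h4 : 2 * √(n : ℝ) + 1 / √((n + 1 : ℕ) : ℝ) ≤ 2 * √((n + 1 : ℕ) : ℝ) := by
      have h5 : 1 / √((n + 1 : ℕ) : ℝ) ≤ 2 * √((n + 1 : ℕ) : ℝ) - 2 * √(n : ℝ) := by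
        rw [div_le_iff₀ h0]
        nlinarith [sq_nonneg (√((n + 1 : ℕ) : ℝ) - √(n : ℝ))]
      linarith
    linarith

theorem sum_rpow {H : ℕ} {x : ℝ} (hx : x ≤ 1 / 2) :
    ∑ h ∈ Finset.Icc 1 (H - 1), ((h : ℝ) / H) ^ (-x) ≤ 2 * H := by
  rcases Nat.eq_zero_or_pos H with h0 | h0
  · subst h0
    simp
  have hH : (0 : ℝ) < H := by exact_mod_cast h0
  have hs : 0 < √(H : ℝ) := Real.sqrt_pos.mpr hH
  have h1 : ∀ h ∈ Finset.Icc 1 (H - 1), ((h : ℝ) / H) ^ (-x) ≤ √(H : ℝ) * (1 / √(h : ℝ)) := by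
    intro h hh
    rw [Finset.mem_Icc] at hh
    have hh0 : (0 : ℝ) < h := by exact_mod_cast (by omega : 0 < h)
    have hle : (h : ℝ) / H ≤ 1 := by
      rw [div_le_one hH]
      exact_mod_cast (by omega : h ≤ H)
    have e1 : ((h : ℝ) / H) ^ (-x) ≤ ((h : ℝ) / H) ^ (-(1 / 2) : ℝ) :=
      Real.rpow_le_rpow_of_exponent_ge (by positivity) hle (by linarith)
    refine e1.trans (le_of_eq ?_)
    rw [Real.rpow_neg (by positivity), ← Real.sqrt_eq_rpow, Real.sqrt_div hh0.le, inv_div]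
    ring
  refine (Finset.sum_le_sum h1).trans ?_
  rw [← Finset.mul_sum]
  have h2 := sum_sqrt (H - 1)
  have h3 : √((H - 1 : ℕ) : ℝ) ≤ √(H : ℝ) := Real.sqrt_le_sqrt (by exact_mod_cast (by omega : H - 1 ≤ H))
  have h4 : √(H : ℝ) * √(H : ℝ) = H := Real.mul_self_sqrt hH.le
  nlinarith

/-- the exponents -/
noncomputable def X (k : ℕ) : ℝ := 1 / ((2 : ℝ) ^ k - 2)
noncomputable def W (k : ℕ) : ℝ := 4 / (2 : ℝ) ^ k

theorem two_pow_ge {k : ℕ} (hk : 2 ≤ k) : (4 : ℝ) ≤ (2 : ℝ) ^ k := by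
  calc (4 : ℝ) = (2 : ℝ) ^ 2 := by norm_num
    _ ≤ (2 : ℝ) ^ k := pow_le_pow_right₀ (by norm_num) hk

theorem X_pos {k : ℕ} (hk : 2 ≤ k) : 0 < X k := by
  have := two_pow_ge hk
  unfold X
  apply div_pos one_pos
  linarith

theorem X_le {k : ℕ} (hk : 2 ≤ k) : X k ≤ 1 / 2 := by
  have := two_pow_ge hk
  unfold X
  apply one_div_le_one_div_of_le (by norm_num)
  linarith

theorem X_succ {k : ℕ} (hk : 2 ≤ k) : X (k + 1) = X k / (1 + X k) / 2 := by
  have := two_pow_ge hk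
  unfold X
  rw [pow_succ]
  set t : ℝ := (2 : ℝ) ^ k with ht
  have h1 : t - 2 ≠ 0 := by
    intro h
    linarith
  have h4 : t - 1 ≠ 0 := by
    intro h
    linarith
  have h3 : 1 + 1 / (t - 2) = (t - 1) / (t - 2) := by
    field_simp
    ring
  have h2 : t * 2 - 2 = 2 * (t - 1) := by ring
  rw [h3, h2]
  field_simp

theorem W_succ (k : ℕ) : W (k + 1) = W k / 2 := by
  unfold W
  rw [pow_succ]
  ring

theorem W_pos (k : ℕ) : 0 < W k := by
  unfold W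
  positivity

theorem W_le {k : ℕ} (hk : 2 ≤ k) : W k ≤ 1 := by
  have := two_pow_ge hk
  unfold W
  rw [div_le_one (by positivity)]
  exact this

end Pool.Agent.H60.KD
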