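import Mathlib
import Pool.Agent.H60.KD.KD3

set_option autoImplicit false

/-!
# KD4: van der Corput's `k`-th difference test, the induction
-/

namespace Pool.Agent.H60.KD

open Pool.Agent.H19.Sup

/-- the bound of the `k`-th difference test -/
noncomputable def bd (k : ℕ) (N μ M : ℝ) : ℝ :=
  N * ((M ^ 2 / μ) ^ (X k) + (M / (μ * N)) ^ (W k) * (M ^ 2 / μ) ^ (-X k))

theorem bd_two {N μ M : ℝ} (hN : 1 ≤ N) (hμ : 0 < μ) (hM : μ ≤ M) :
    (M * N + 1) / √μ = bd 2 N μ M := by
  have hM0 : 0 < M := by linarith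
  have hN0 : 0 < N := by linarith
  have hX : X 2 = 1 / 2 := by
    unfold X
    norm_num
  have hW : W 2 = 1 := by
    unfold W
    norm_num
  unfold bd
  rw [hX, hW, Real.rpow_one, Real.rpow_neg (by positivity), ← Real.sqrt_eq_rpow,
    Real.sqrt_div (by positivity), Real.sqrt_sq hM0.le]
  have hs : 0 < √μ := Real.sqrt_pos.mpr hμ
  have hss : μ = √μ * √μ := (Real.mul_self_sqrt hμ.le).symm
  have e : M / (μ * N) = M / (√μ * √μ * N) := by rw [← hss]
  rw [e]
  field_simp

/-- the induction step with the sizes as numbers -/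
theorem step_num {N H H0 C Ly Lm q S2 : ℝ} (hN : 1 ≤ N) (hH : 1 ≤ H) (hH0 : H0 ≤ 2 * H)
    (hC : 1 ≤ C) (hLy : 0 < Ly) (hLm : 0 < Lm) (hq : 0 ≤ q) (h1 : H0 * Ly = 1)
    (hS : S2 ≤ 2 * N / H * (N + 2 * (C * N * (H * Ly + q * (2 * H * (2 * Lm)))))) :
    S2 ≤ (4 + 16 * C) * (N ^ 2 * (Ly + q * Lm)) := by
  refine hS.trans ?_
  have hHpos : 0 < H := by linarith
  have e1 : 2 * N / H * (N + 2 * (C * N * (H * Ly + q * (2 * H * (2 * Lm))))) =
      2 * N ^ 2 / H + 4 * C * N ^ 2 * (Ly + 4 * (q * Lm)) := by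
    field_simp
    ring
  rw [e1]
  have e2 : 1 / H ≤ 2 * Ly := by
    rw [div_le_iff₀ hHpos]
    have : H0 * Ly ≤ 2 * H * Ly := mul_le_mul_of_nonneg_right hH0 hLy.le
    linarith
  have e3 : 2 * N ^ 2 / H ≤ 4 * N ^ 2 * Ly := by
    have : 2 * N ^ 2 / H = 2 * N ^ 2 * (1 / H) := by ring
    rw [this]
    have h0 : 0 ≤ 2 * N ^ 2 := by positivity
    nlinarith
  have hN2 : 0 < N ^ 2 := by positivity
  have hqL : 0 ≤ q * Lm := by positivity
  have e4 : 0 ≤ N ^ 2 * (q * Lm) := by positivity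
  have e5 : 0 ≤ C * (N ^ 2 * Ly) := by positivity
  nlinarith

theorem kdt (k : ℕ) (hk : 2 ≤ k) : ∃ C : ℝ, 1 ≤ C ∧ ∀ (φ : ℤ → ℝ) (a b : ℤ) (N μ M : ℝ),
    1 ≤ N → ((b - a + 1 : ℤ) : ℝ) ≤ N → 0 < μ → μ ≤ M →
    (∀ n, a ≤ n → n + k ≤ b → μ ≤ D k φ n ∧ D k φ n ≤ M) →
    ‖∑ n ∈ Finset.Icc a b, ee (φ n)‖ ≤ C * bd k N μ M := by
  induction k, hk using Nat.le_induction with
  | base =>
    refine ⟨12, by norm_num, ?_⟩
    intro φ a b N μ M hN hL hμ hM h
    have := sd φ a b hN hL hμ hM (by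
      intro n h1 h2
      have := h n h1 (by push_cast; exact h2)
      simp only [D] at this
      rw [show n + 1 + 1 = n + 2 by ring] at this
      exact this)
    rw [bd_two hN hμ hM] at this
    exact this
  | succ k hk ih =>
    obtain ⟨C, hC, ih⟩ := ih
    refine ⟨4 + 16 * C, by linarith, ?_⟩
    intro φ a b N μ M hN hL hμ hM h
    have hM0 : 0 < M := by linarith
    have hN0 : 0 < N := by linarith
    set Λ : ℝ := M ^ 2 / μ with hΛ
    have hΛ0 : 0 < Λ := by positivity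
    set x : ℝ := X k with hx
    have hx0 : 0 < x := X_pos hk
    have hx2 : x ≤ 1 / 2 := X_le hk
    set w : ℝ := W k with hw
    have hw0 : 0 < w := W_pos k
    have hw1 : w ≤ 1 := W_le hk
    set y : ℝ := x / (1 + x) with hy
    have hy0 : 0 < y := by positivity
    have hXs : X (k + 1) = y / 2 := X_succ hk
    have hWs : W (k + 1) = w / 2 := W_succ k
    have hyx : (1 - y) * x = y := by
      rw [hy]
      field_simp
      ring
    set r : ℝ := M / (μ * N) with hr
    have hr0 : 0 < r := by positivity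
    have hbd : bd (k + 1) N μ M = N * (Λ ^ (y / 2) + r ^ (w / 2) * Λ ^ (-(y / 2))) := by
      unfold bd
      rw [hXs, hWs]
    have hpos : 0 ≤ r ^ (w / 2) * Λ ^ (-(y / 2)) := by positivity
    have hpos' : 0 ≤ Λ ^ (y / 2) := by positivity
    have htriv := triv φ a b (by linarith : (0 : ℝ) ≤ N) hL
    rcases le_or_gt 1 Λ with hΛ1 | hΛ1
    · -- trivial bound, `Λ ≥ 1`
      refine htriv.trans ?_
      rw [hbd]
      have e1 : 1 ≤ Λ ^ (y / 2) := Real.one_le_rpow hΛ1 (by positivity)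
      have e2 : N ≤ N * (Λ ^ (y / 2) + r ^ (w / 2) * Λ ^ (-(y / 2))) := by
        nlinarith
      nlinarith
    set H0 : ℝ := Λ ^ (-y) with hH0
    have hH0pos : 0 < H0 := Real.rpow_pos_of_pos hΛ0 _
    have hH01 : 1 ≤ H0 := by
      rw [hH0]
      exact Real.one_le_rpow_of_pos_of_le_one_of_nonpos hΛ0 hΛ1.le (by linarith)
    have hHy : H0 * Λ ^ y = 1 := by
      rw [hH0, ← Real.rpow_add hΛ0]
      simp
    rcases lt_or_ge N H0 with hNH | hNH
    · -- trivial bound, `H0 > N`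
      refine htriv.trans ?_
      rw [hbd]
      have e1 : Λ ^ (-(y / 2)) = H0 ^ (1 / 2 : ℝ) := by
        rw [hH0, ← Real.rpow_mul hΛ0.le]
        congr 1
        ring
      have e2 : (1 / N) ^ (w / 2) ≤ r ^ (w / 2) := by
        apply Real.rpow_le_rpow (by positivity) _ (by positivity)
        rw [hr, div_le_div_iff₀ hN0 (by positivity)]
        nlinarith
      have e3 : N ^ (1 / 2 : ℝ) ≤ H0 ^ (1 / 2 : ℝ) :=
        Real.rpow_le_rpow hN0.le hNH.le (by norm_num)
      have e4 : 1 ≤ (1 / N) ^ (w / 2) * N ^ (1 / 2 : ℝ) := by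
        rw [one_div, Real.inv_rpow hN0.le, ← Real.rpow_neg hN0.le, ← Real.rpow_add hN0]
        exact Real.one_le_rpow hN (by linarith)
      have e5 : 1 ≤ r ^ (w / 2) * Λ ^ (-(y / 2)) := by
        rw [e1]
        refine e4.trans ?_
        exact mul_le_mul e2 e3 (by positivity) (by positivity)
      have e6 : N ≤ N * (Λ ^ (y / 2) + r ^ (w / 2) * Λ ^ (-(y / 2))) := by
        nlinarith
      nlinarith
    -- main case
    set H : ℕ := ⌊H0⌋₊ with hHdef
    have hH1 : 1 ≤ H := Nat.one_le_floor_iff _ |>.mpr hH01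
    have hH1r : (1 : ℝ) ≤ H := by exact_mod_cast hH1
    have hHle : (H : ℝ) ≤ H0 := Nat.floor_le hH0pos.le
    have hHge : H0 ≤ 2 * H := by
      have h3 := Nat.lt_floor_add_one H0
      rw [← hHdef] at h3
      linarith
    have hHpos : (0 : ℝ) < H := by linarith
    set q : ℝ := r ^ w with hq
    have hq0 : 0 < q := Real.rpow_pos_of_pos hr0 _
    have key := weyl φ a b hN0 hL hH1 (hHle.trans hNH)
      (fun h => C * (N * ((h * Λ) ^ x + q * (h * Λ) ^ (-x)))) (by
      intro j hj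
      rw [Finset.mem_Icc] at hj
      have hj0 : (0 : ℝ) < j := by exact_mod_cast hj.1
      have hlen : (((b - (j : ℤ)) - a + 1 : ℤ) : ℝ) ≤ N := by
        refine le_trans ?_ hL
        exact_mod_cast (by omega : (b - (j : ℤ)) - a + 1 ≤ b - a + 1)
      have h5 := ih (fun n => φ (n + j) - φ n) a (b - j) N (j * μ) (j * M) hN hlen
        (by positivity) (by nlinarith) (by
          intro n h1 h2
          exact D_step k φ (a := a) (b := b) h j n h1 (by omega))
      refine h5.trans (le_of_eq ?_)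
      unfold bd
      have e1 : ((j : ℝ) * M) ^ 2 / (j * μ) = j * Λ := by
        rw [hΛ]
        field_simp
      have e2 : (j : ℝ) * M / (j * μ * N) = r := by
        rw [hr]
        field_simp
      rw [e1, e2])
    have hsum : ∑ h ∈ Finset.Icc 1 (H - 1), C * (N * (((h : ℝ) * Λ) ^ x + q * ((h : ℝ) * Λ) ^ (-x)))
        ≤ C * N * (H * Λ ^ y + q * (2 * H * (2 * Λ ^ (-y)))) := by
      have e1 : ∀ h ∈ Finset.Icc 1 (H - 1), C * (N * (((h : ℝ) * Λ) ^ x + q * ((h : ℝ) * Λ) ^ (-x)))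
          ≤ C * N * Λ ^ y + C * N * (q * (2 * Λ ^ (-y))) * ((h : ℝ) / H) ^ (-x) := by
        intro h hh
        rw [Finset.mem_Icc] at hh
        have hh0 : (0 : ℝ) < h := by exact_mod_cast (by omega : 0 < h)
        have hhH : (h : ℝ) ≤ H := by exact_mod_cast (by omega : h ≤ H)
        have f1 : ((h : ℝ) * Λ) ^ x ≤ Λ ^ y := by
          have g1 : (h : ℝ) * Λ ≤ H0 * Λ := mul_le_mul_of_nonneg_right (hhH.trans hHle) hΛ0.le
          have g2 : H0 * Λ = Λ ^ (1 - y) := by
            rw [hH0]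
            nth_rewrite 2 [← Real.rpow_one Λ]
            rw [← Real.rpow_add hΛ0]
            congr 1
            ring
          calc ((h : ℝ) * Λ) ^ x ≤ (Λ ^ (1 - y)) ^ x := by
                rw [← g2]
                exact Real.rpow_le_rpow (by positivity) g1 hx0.le
            _ = Λ ^ y := by rw [← Real.rpow_mul hΛ0.le, hyx]
        have f2 : ((h : ℝ) * Λ) ^ (-x) ≤ ((h : ℝ) / H) ^ (-x) * (2 * Λ ^ (-y)) := by
          have g1 : (h : ℝ) * Λ = ((h : ℝ) / H) * (H * Λ) := by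
            field_simp
          rw [g1, Real.mul_rpow (by positivity) (by positivity)]
          apply mul_le_mul_of_nonneg_left _ (by positivity)
          have g2 : Λ ^ (1 - y) / 2 ≤ H * Λ := by
            have : Λ ^ (1 - y) = H0 * Λ := by
              rw [hH0]
              nth_rewrite 3 [← Real.rpow_one Λ]
              rw [← Real.rpow_add hΛ0]
              congr 1
              ring
            rw [this]
            nlinarith
          calc ((H : ℝ) * Λ) ^ (-x) ≤ (Λ ^ (1 - y) / 2) ^ (-x) :=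
                Real.rpow_le_rpow_of_nonpos (by positivity) g2 (by linarith)
            _ = 2 ^ x * Λ ^ (-y) := by
                rw [Real.div_rpow (by positivity) (by norm_num), ← Real.rpow_mul hΛ0.le,
                  Real.rpow_neg (by norm_num : (0:ℝ) ≤ 2), div_inv_eq_mul, mul_comm]
                congr 2
                linarith
            _ ≤ 2 * Λ ^ (-y) := by
                apply mul_le_mul_of_nonneg_right _ (by positivity)
                calc (2 : ℝ) ^ x ≤ 2 ^ (1 : ℝ) :=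
                      Real.rpow_le_rpow_of_exponent_le (by norm_num) (by linarith)
                  _ = 2 := Real.rpow_one 2
        have hCN : 0 ≤ C * N := by positivity
        have f3 := mul_le_mul_of_nonneg_left f2 hq0.le
        have f4 := mul_le_mul_of_nonneg_left (add_le_add f1 f3) hCN
        calc C * (N * (((h : ℝ) * Λ) ^ x + q * ((h : ℝ) * Λ) ^ (-x)))
            = C * N * (((h : ℝ) * Λ) ^ x + q * ((h : ℝ) * Λ) ^ (-x)) := by ring
          _ ≤ C * N * (Λ ^ y + q * (((h : ℝ) / H) ^ (-x) * (2 * Λ ^ (-y)))) := f4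
          _ = _ := by ring
      refine (Finset.sum_le_sum e1).trans ?_
      have s1 : ∑ _h ∈ Finset.Icc 1 (H - 1), C * N * Λ ^ y =
          ((H - 1 + 1 - 1 : ℕ) : ℝ) * (C * N * Λ ^ y) := by
        rw [Finset.sum_const, nsmul_eq_mul, Nat.card_Icc]
      rw [Finset.sum_add_distrib, s1, ← Finset.mul_sum]
      have e2 := sum_rpow (H := H) (x := x) hx2
      have e3 : ((H - 1 + 1 - 1 : ℕ) : ℝ) ≤ H := by exact_mod_cast (by omega : H - 1 + 1 - 1 ≤ H)
      have e4 : 0 ≤ C * N * Λ ^ y := by positivity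
      have e5 : 0 ≤ C * N * (q * (2 * Λ ^ (-y))) := by positivity
      have e6 := mul_le_mul_of_nonneg_right e3 e4
      have e7 := mul_le_mul_of_nonneg_left e2 e5
      calc ((H - 1 + 1 - 1 : ℕ) : ℝ) * (C * N * Λ ^ y) + C * N * (q * (2 * Λ ^ (-y))) *
            ∑ h ∈ Finset.Icc 1 (H - 1), ((h : ℝ) / H) ^ (-x)
          ≤ H * (C * N * Λ ^ y) + C * N * (q * (2 * Λ ^ (-y))) * (2 * H) := add_le_add e6 e7
        _ = _ := by ring
    have hfin := step_num (S2 := ‖∑ n ∈ Finset.Icc a b, ee (φ n)‖ ^ 2) hN hH1r hHge hC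
      (Real.rpow_pos_of_pos hΛ0 y) (Real.rpow_pos_of_pos hΛ0 (-y)) hq0.le hHy (by
        refine key.trans ?_
        apply mul_le_mul_of_nonneg_left _ (by positivity)
        linarith)
    rw [hbd]
    apply abs_le_of_sq_le_sq' _ (by positivity) |>.2
    refine hfin.trans ?_
    have e1 : (Λ ^ (y / 2)) ^ 2 = Λ ^ y := by
      rw [← Real.rpow_natCast, ← Real.rpow_mul hΛ0.le]
      congr 1
      push_cast
      ring
    have e2 : (r ^ (w / 2)) ^ 2 = q := by
      rw [hq, ← Real.rpow_natCast, ← Real.rpow_mul hr0.le]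
      congr 1
      push_cast
      ring
    have e3 : (Λ ^ (-(y / 2))) ^ 2 = Λ ^ (-y) := by
      rw [← Real.rpow_natCast, ← Real.rpow_mul hΛ0.le]
      congr 1
      push_cast
      ring
    have e4 : Λ ^ y + q * Λ ^ (-y) ≤ (Λ ^ (y / 2) + r ^ (w / 2) * Λ ^ (-(y / 2))) ^ 2 := by
      rw [← e1, ← e2, ← e3]
      have := mul_nonneg hpos' hpos
      nlinarith
    have e5 : N ^ 2 * (Λ ^ y + q * Λ ^ (-y)) ≤
        (N * (Λ ^ (y / 2) + r ^ (w / 2) * Λ ^ (-(y / 2)))) ^ 2 := by
      rw [mul_pow]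
      exact mul_le_mul_of_nonneg_left e4 (by positivity)
    have e6 : 0 ≤ N ^ 2 * (Λ ^ y + q * Λ ^ (-y)) := by positivity
    calc (4 + 16 * C) * (N ^ 2 * (Λ ^ y + q * Λ ^ (-y)))
        ≤ (4 + 16 * C) ^ 2 * (N ^ 2 * (Λ ^ y + q * Λ ^ (-y))) := by
          apply mul_le_mul_of_nonneg_right _ e6
          nlinarith
      _ ≤ (4 + 16 * C) ^ 2 * (N * (Λ ^ (y / 2) + r ^ (w / 2) * Λ ^ (-(y / 2)))) ^ 2 :=
          mul_le_mul_of_nonneg_left e5 (by positivity)
      _ = _ := by ring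

end Pool.Agent.H60.KD
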