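import Mathlib
import Pool.Agent.H60.KD.KD4

set_option autoImplicit false

/-!
# KD5: van der Corput's `k`-th derivative test

If `μ ≤ |f^(k)| ≤ M` on `[A, B]`, `B - A ≤ N`, `Λ = M² / μ`, `x = 1 / (2^k - 2)`, `w = 4 / 2^k`, then
`|∑_{A ≤ n ≤ B} e(f n)| ≤ C N (Λ ^ x + (M / (μ N)) ^ w Λ ^ (-x))` with `C` depending on `k` only.
-/

namespace Pool.Agent.H60.KD

open Pool.Agent.H19.Sup
open scoped ComplexConjugate

/-- mean value theorem for the `k`-th difference -/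
theorem D_mvt (k : ℕ) : ∀ (f : ℕ → ℝ → ℝ) {A B : ℝ},
    (∀ i < k, ∀ x ∈ Set.Icc A B, HasDerivAt (f i) (f (i + 1) x) x) →
    ∀ n : ℤ, A ≤ n → (n : ℝ) + k ≤ B → ∃ ξ ∈ Set.Icc A B, D k (fun m : ℤ => f 0 m) n = f k ξ := by
  induction k with
  | zero =>
    intro f A B _ n h1 h2
    exact ⟨n, ⟨h1, by simpa using h2⟩, rfl⟩
  | succ k ih =>
    intro f A B hd n h1 h2
    push_cast at h2
    have e1 : ∀ i < k, ∀ x ∈ Set.Icc A (B - 1),
        HasDerivAt (fun x => f i (x + 1) - f i x) (f (i + 1) (x + 1) - f (i + 1) x) x := by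
      intro i hi x hx
      have a1 := hd i (by omega) x ⟨hx.1, by linarith [hx.2]⟩
      have a2 := hd i (by omega) (x + 1) ⟨by linarith [hx.1], by linarith [hx.2]⟩
      exact (a2.comp_add_const x 1).sub a1
    obtain ⟨ξ, hξ, he⟩ := ih (fun i x => f i (x + 1) - f i x) e1 n h1 (by linarith)
    obtain ⟨η, hη, he2⟩ := V3_mvt (f k) (f (k + 1)) (x := ξ) (h := 1) (hd k (by omega)) hξ.1
      (by linarith [hξ.2]) one_pos
    refine ⟨η, hη, ?_⟩
    rw [one_mul] at he2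
    rw [← he2, ← he]
    simp only [D]
    congr 1
    funext m
    push_cast
    rfl

/-- a derivative that does not vanish has constant sign -/
theorem const_sign (g g' : ℝ → ℝ) {A B μ M : ℝ} (hμ : 0 < μ)
    (hd : ∀ x ∈ Set.Icc A B, HasDerivAt g (g' x) x)
    (h : ∀ x ∈ Set.Icc A B, μ ≤ |g' x| ∧ |g' x| ≤ M) :
    (∀ x ∈ Set.Icc A B, μ ≤ g' x ∧ g' x ≤ M) ∨ (∀ x ∈ Set.Icc A B, μ ≤ - g' x ∧ - g' x ≤ M) := by
  have hne : ∀ x ∈ Set.Icc A B, g' x ≠ 0 := by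
    intro x hx h0
    have := (h x hx).1
    rw [h0, abs_zero] at this
    linarith
  rcases hasDerivWithinAt_forall_lt_or_forall_gt_of_forall_ne (convex_Icc A B)
    (fun x hx => (hd x hx).hasDerivWithinAt) hne with h1 | h1
  · right
    intro x hx
    have := h x hx
    rw [abs_of_neg (h1 x hx)] at this
    exact this
  · left
    intro x hx
    have := h x hx
    rw [abs_of_pos (h1 x hx)] at this
    exact this

theorem ee_neg_conj (x : ℝ) : ee (-x) = conj (ee x) := by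
  rw [ee, ee, ← Complex.exp_conj]
  congr 1
  rw [map_mul, Complex.conj_I, Complex.conj_ofReal]
  push_cast
  ring

theorem bd_two_mul {k : ℕ} {N μ M : ℝ} (hN : 1 ≤ N) (hμ : 0 < μ) (hM : μ ≤ M) :
    bd k (2 * N) μ M ≤ 2 * bd k N μ M := by
  have hM0 : 0 < M := by linarith
  have hN0 : 0 < N := by linarith
  unfold bd
  have h1 : (M / (μ * (2 * N))) ^ (W k) ≤ (M / (μ * N)) ^ (W k) := by
    apply Real.rpow_le_rpow (by positivity) _ (W_pos k).le
    apply div_le_div_of_nonneg_left hM0.le (by positivity)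
    nlinarith
  have h2 : 0 ≤ (M ^ 2 / μ) ^ (-X k) := by positivity
  have h3 := mul_le_mul_of_nonneg_right h1 h2
  have h4 : 0 ≤ 2 * N := by positivity
  have h5 := mul_le_mul_of_nonneg_left (add_le_add_right h3 ((M ^ 2 / μ) ^ (X k))) h4
  linarith

/-- **van der Corput's `k`-th derivative test** -/
theorem kd (k : ℕ) (hk : 2 ≤ k) : ∃ C : ℝ, 1 ≤ C ∧ ∀ (f : ℕ → ℝ → ℝ) (A B N μ M : ℝ),
    1 ≤ N → B - A ≤ N → 0 < μ → μ ≤ M →
    (∀ i < k, ∀ x ∈ Set.Icc A B, HasDerivAt (f i) (f (i + 1) x) x) →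
    (∀ x ∈ Set.Icc A B, μ ≤ |f k x| ∧ |f k x| ≤ M) →
    ‖∑ n ∈ Finset.Icc ⌈A⌉ ⌊B⌋, ee (f 0 n)‖ ≤ C * bd k N μ M := by
  obtain ⟨C, hC, hkdt⟩ := kdt k hk
  refine ⟨2 * C, by linarith, ?_⟩
  intro f A B N μ M hN hBA hμ hM hd h
  have hlen : (((⌊B⌋ - ⌈A⌉ + 1 : ℤ) : ℝ)) ≤ 2 * N := by
    push_cast
    have h4 := Int.floor_le B
    have h5 := Int.le_ceil A
    linarith
  have hC0 : 0 ≤ C := by linarith
  have hfin : C * bd k (2 * N) μ M ≤ 2 * C * bd k N μ M := by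
    have := mul_le_mul_of_nonneg_left (bd_two_mul (k := k) hN hμ hM) hC0
    linarith
  refine le_trans ?_ hfin
  have hk1 : k - 1 + 1 = k := by omega
  have hds : ∀ x ∈ Set.Icc A B, HasDerivAt (f (k - 1)) (f k x) x := by
    intro x hx
    have := hd (k - 1) (by omega) x hx
    rw [hk1] at this
    exact this
  have hmv : ∀ n : ℤ, ⌈A⌉ ≤ n → n + k ≤ ⌊B⌋ → ∃ ξ ∈ Set.Icc A B,
      D k (fun m : ℤ => f 0 m) n = f k ξ := by
    intro n h1 h2
    apply D_mvt k f hd n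
    · exact Int.ceil_le.mp h1
    · have := Int.le_floor.mp h2
      push_cast at this
      exact this
  rcases const_sign (f (k - 1)) (f k) hμ hds h with h1 | h1
  · apply hkdt (fun m : ℤ => f 0 m) ⌈A⌉ ⌊B⌋ (2 * N) μ M (by linarith) hlen hμ hM
    intro n a1 a2
    obtain ⟨ξ, hξ, he⟩ := hmv n a1 a2
    rw [he]
    exact h1 ξ hξ
  · have e := hkdt (fun m : ℤ => - f 0 m) ⌈A⌉ ⌊B⌋ (2 * N) μ M (by linarith) hlen hμ hM (by
      intro n a1 a2
      obtain ⟨ξ, hξ, he⟩ := hmv n a1 a2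
      rw [D_neg, he]
      exact h1 ξ hξ)
    have e2 : ∑ n ∈ Finset.Icc ⌈A⌉ ⌊B⌋, ee (- f 0 n) =
        conj (∑ n ∈ Finset.Icc ⌈A⌉ ⌊B⌋, ee (f 0 n)) := by
      rw [map_sum]
      exact Finset.sum_congr rfl (fun n _ => ee_neg_conj _)
    rw [e2, RCLike.norm_conj] at e
    exact e

end Pool.Agent.H60.KD
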